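import Pool.Agent.Helper64.FL.StG

set_option autoImplicit false

namespace Pool.Agent.Helper64.FL

theorem st_PTB (hI : ST_IPL) : ST_PTB := by
  intro V G
  obtain ⟨hrev, happ, hnd, _⟩ := hI V G
  have hr : ∀ a l w, Pth G a l w → Pth G w l.reverse a := by
    rintro a l w (⟨rfl, rfl⟩ | ⟨h1, h2⟩)
    · exact Or.inl ⟨rfl, rfl⟩
    · refine Or.inr ⟨h1.symm, ?_⟩
      have := hrev _ h2
      simpa using this
  have hn : ∀ a l w, Pth G a l w → a ∉ l ∧ w ∉ l ∧ l.Nodup := by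
    rintro a l w (⟨rfl, rfl⟩ | ⟨h1, h2⟩)
    · simp
    · have h3 := hnd _ h2
      rw [List.nodup_cons] at h3
      have h4 := h3.2
      rw [List.nodup_append] at h4
      refine ⟨fun h => h3.1 (by simp [h]), fun h => ?_, h4.1⟩
      exact h4.2.2 w h w (by simp) rfl
  refine ⟨hr, hn, ?_, ?_, ?_, ?_⟩
  · rintro a z l w (⟨_, h2⟩ | ⟨h1, h2⟩)
    · simp at h2
    · have h3 : (∀ x ∈ (z :: l ++ [w]), a ≠ x) ∧ (∀ b ∈ (z :: l ++ [w]).head?, G.Adj a b) ∧
          (∀ x ∈ (z :: l ++ [w]).tail, ¬ G.Adj a x) ∧ IPt G (z :: l ++ [w]) := h2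
      obtain ⟨h4, h5, h6, h7⟩ := h3
      have h8 : z ≠ w := by
        have h9 := hnd _ h7
        intro h
        subst h
        simp at h9
      refine ⟨h5 z (by simp), h1, h6 w (by simp), h8, Or.inr ⟨h8, h7⟩, ?_⟩
      intro u hu
      exact ⟨h4 u (by simp [hu]), h6 u (by simp [hu])⟩
  · rintro a w (⟨h1, _⟩ | ⟨h1, h2⟩)
    · exact Or.inl h1
    · refine Or.inr ?_
      have h3 : (∀ x ∈ ([w] : List V), a ≠ x) ∧ (∀ b ∈ ([w] : List V).head?, G.Adj a b) ∧
          (∀ x ∈ ([w] : List V).tail, ¬ G.Adj a x) ∧ IPt G [w] := h2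
      exact h3.2.1 w (by simp)
  · intro a w h
    refine Or.inr ⟨h.ne, ?_⟩
    show (∀ x ∈ ([w] : List V), a ≠ x) ∧ (∀ b ∈ ([w] : List V).head?, G.Adj a b) ∧
          (∀ x ∈ ([w] : List V).tail, ¬ G.Adj a x) ∧ IPt G [w]
    refine ⟨?_, ?_, ?_, ?_⟩
    · intro x hx
      rw [List.mem_singleton] at hx
      rw [hx]
      exact h.ne
    · intro b hb
      simp only [List.head?_cons, Option.mem_def, Option.some.injEq] at hb
      rw [← hb]
      exact h
    · intro x hx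
      simp at hx
    · show (∀ x ∈ ([] : List V), w ≠ x) ∧ (∀ b ∈ ([] : List V).head?, G.Adj w b) ∧
          (∀ x ∈ ([] : List V).tail, ¬ G.Adj w x) ∧ IPt G ([] : List V)
      refine ⟨?_, ?_, ?_, trivial⟩
      · intro x hx; simp at hx
      · intro x hx; simp at hx
      · intro x hx; simp at hx
  · intro a
    exact Or.inl ⟨rfl, rfl⟩

end Pool.Agent.Helper64.FL
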