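import Pool.Agent.Helper64.FL.StC

/-! Full list for MP_866009_co: the colouring and `phi` agree on clusters. -/

set_option autoImplicit false

namespace Pool.Agent.Helper64.FL

open Pool.Agent.Helper64.CT Pool.Agent.Helper64.DT
open Pool.Agent.Helper64.HG (Ovl Model Circ IC HellyCircle ChordModel)

theorem utq_bool (a b c : Bool) (i j r : ℕ) (hr : i + j = r) (h1 : a = b ↔ Even i)
    (h2 : b = c ↔ Even j) : a = c ↔ Even r := by
  subst hr
  rw [Nat.even_add, ← h1, ← h2]
  cases a <;> cases b <;> cases c <;> decide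

theorem utq_walk (hV : ST_VWX) (hN : ST_VNO) (hR : ST_RAY) (V : Type) (G : SimpleGraph V)
    (Q : Set V) (σ : V → Bool) (n : ℕ) (θ : V → ℕ) (f : V → Bool) (he : EnvC G Q σ)
    (hl : Lay G Q σ n θ f) (hs : Sgw G Q σ) (y : V) (hy : y ∈ Q) :
    ∀ r : ℕ, ∀ (x x' u u' : V) (E : ℕ → V), y ≠ x → y ≠ x' → RayQ G Q x u → RayQ G Q x' u' →
      1 ≤ r → (∀ i, i < r → Conf G y (E i) (E (i + 1))) → Comp G y u (E 0) →
      Comp G y u' (E r) → (phi σ θ f y x u = phi σ θ f y x' u' ↔ Even r) := by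
  intro r
  induction r using Nat.strong_induction_on with
  | _ r ih =>
    intro x x' u u' E hx hx' hu hu' hr hE h0 h1
    obtain ⟨_, _, _, _, hR5, _⟩ := hR V G Q he.red.df he.mx
    by_cases hq : ∃ i, 1 ≤ i ∧ i < r ∧ ∃ q ∈ Q, q ∈ Att G y (E i)
    · obtain ⟨i, hi1, hir, q, hqQ, hqa⟩ := hq
      obtain ⟨hqy, w, hw, hEw⟩ := (hR5 y hy q hqQ (E i)).1 hqa
      refine utq_bool _ (phi σ θ f y q w) _ i (r - i) r (by omega) ?_ ?_
      · exact ih i hir x q u w E hx (Ne.symm hqy) hu hw hi1 (fun j hj => hE j (by omega)) h0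
          hEw.symm
      · refine ih (r - i) (by omega) q x' w u' (fun j => E (i + j)) (Ne.symm hqy) hx' hw hu'
          (by omega) ?_ ?_ ?_
        · intro j hj
          have h := hE (i + j) (by omega)
          rw [show i + j + 1 = i + (j + 1) by omega] at h
          exact h
        · exact hEw.symm
        · show Comp G y u' (E (i + (r - i)))
          rw [show i + (r - i) = r by omega]
          exact h1
    · refine hV V G Q σ n θ f he hl hs (hN V G Q he.red he.ci he.np he.mx) y x x' u u' r E hy hx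
        hx' hu hu' hr hE h0 h1 ?_
      intro i hi1 hir q hqQ hqa
      exact hq ⟨i, hi1, hir, q, hqQ, hqa⟩

theorem st_UTQ (hV : ST_VWX) (hN : ST_VNO) (hP : ST_PHI) (hC : ST_CWX) (hR : ST_RAY) :
    ST_UTQ := by
  intro V G Q σ n θ f he hl hs y x x' u u' hy hx hx' hu hu' hcl c hc
  obtain ⟨hR1, _, _, _, _, _⟩ := hR V G Q he.red.df he.mx
  have huF : u ∈ Far G y := (hR1 x u y hu hy hx).1
  rcases (hC V G y).1 u u' huF hcl with h | ⟨r, E, hr, hE0, hEr, hE⟩
  · have h1 := hP V G Q σ n θ f he hl y x x' u u' hy hx hx' hu hu' h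
    have h2 := hc.1 u u' h
    exact ⟨fun _ => h2, fun _ => h1⟩
  · have h1 := ((hC V G y).2 r E hE).2 c hc
    rw [hE0, hEr] at h1
    rw [h1]
    have hu'F : u' ∈ Far G y := (hR1 x' u' y hu' hy hx').1
    refine utq_walk hV hN hR V G Q σ n θ f he hl hs y hy r x x' u u' E hx hx' hu hu' hr hE ?_ ?_
    · rw [hE0]; exact Comp.refl huF
    · rw [hEr]; exact Comp.refl hu'F

end Pool.Agent.Helper64.FL
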